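import Pool.Agent.Q146.FAE.Ext
import Pool.Agent.Q146.FAD.Main

/-!
# Surfaces with holes, and the surfaces obtained by closing the holes
-/

set_option autoImplicit false

open Set MeasureTheory BoundedContinuousFunction

namespace Pool.Agent.Q146.FAE

open Pool.Agent.H115R3.Filling Pool.Agent.Q146.FAD

/-- A compact oriented Riemannian surface with finitely many boundary curves: one of them, the outer
one, is parametrised by the circle of length `2π`; the `j`-th other one, the `j`-th hole, is the union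
of an even number `2 (half j)` of sides of the squares, and is parametrised by the same circle. -/
structure HoledSurface (M : Type) [MetricSpace M] where
  /-- number of faces -/
  faces : ℕ
  /-- parametrisation of the `i`-th closed face by the unit square -/
  chart : Fin faces → ℝ × ℝ → M
  /-- the Riemannian metric of the `i`-th face, in its parametrisation -/
  metric : Fin faces → RiemMetric
  /-- the distance in `M` is at most the Riemannian length of straight segments in the charts -/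
  dist_le : ∀ i, ∀ p ∈ Sq, ∀ q ∈ Sq,
    dist (chart i p) (chart i q) ≤ (metric i).segLength p q
  /-- the sides of the faces that are interior edges of the surface -/
  interior : Finset (Fin faces × Fin 4)
  /-- the side to which an interior side is glued -/
  pair : Fin faces × Fin 4 → Fin faces × Fin 4
  pair_mem : ∀ s ∈ interior, pair s ∈ interior
  pair_pair : ∀ s ∈ interior, pair (pair s) = s
  pair_ne : ∀ s ∈ interior, pair s ≠ s
  /-- glued sides are traversed in opposite directions (orientability) -/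
  glue : ∀ s ∈ interior, ∀ t ∈ Set.Icc (0 : ℝ) 1,
    chart (pair s).1 (side (pair s).2 t) = chart s.1 (side s.2 (1 - t))
  /-- number of outer boundary edges -/
  arcs : ℕ
  /-- the side that is the `k`-th outer boundary edge -/
  arcSide : Fin arcs → Fin faces × Fin 4
  arcSide_injective : Function.Injective arcSide
  /-- number of holes -/
  holes : ℕ
  /-- half the number of the edges of the `j`-th hole -/
  half : Fin holes → ℕ
  /-- the side that is the `k`-th edge of the `j`-th hole -/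
  holeSide : (Σ j : Fin holes, Fin (2 * half j)) → Fin faces × Fin 4
  holeSide_injective : Function.Injective holeSide
  disjoint : ∀ k x, arcSide k ≠ holeSide x
  /-- the sides that are not interior are exactly the edges of the boundary curves -/
  range_eq : ∀ s, s ∉ interior ↔ (∃ k, arcSide k = s) ∨ ∃ x, holeSide x = s
  /-- the partition of `[0, 2π]` given by the vertices of the outer boundary -/
  brk : Fin (arcs + 1) → ℝ
  brk_strictMono : StrictMono brk
  brk_zero : brk 0 = 0
  brk_last : brk (Fin.last arcs) = 2 * Real.pi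
  /-- parametrisation of the outer boundary by the circle of length `2π` -/
  boundary : AddCircle (2 * Real.pi) → M
  boundary_eq : ∀ k : Fin arcs, ∀ u ∈ Set.Icc (0 : ℝ) 1,
    chart (arcSide k).1 (side (arcSide k).2 u) =
      boundary ((brk k.castSucc + u * (brk k.succ - brk k.castSucc) : ℝ) :
        AddCircle (2 * Real.pi))
  /-- the partition of `[0, 2π]` given by the vertices of the `j`-th hole -/
  hBrk : (j : Fin holes) → Fin (2 * half j + 1) → ℝ
  hBrk_strictMono : ∀ j, StrictMono (hBrk j)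
  hBrk_zero : ∀ j, hBrk j 0 = 0
  hBrk_last : ∀ j, hBrk j (Fin.last (2 * half j)) = 2 * Real.pi
  /-- parametrisation of the `j`-th hole by the circle of length `2π` -/
  curve : Fin holes → AddCircle (2 * Real.pi) → M
  curve_eq : ∀ (j : Fin holes) (k : Fin (2 * half j)), ∀ u ∈ Set.Icc (0 : ℝ) 1,
    chart (holeSide ⟨j, k⟩).1 (side (holeSide ⟨j, k⟩).2 u) =
      curve j ((hBrk j k.castSucc + u * (hBrk j k.succ - hBrk j k.castSucc) : ℝ) :
        AddCircle (2 * Real.pi))

/-- the area of the surface -/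
noncomputable def HoledSurface.area {M : Type} [MetricSpace M] (S : HoledSurface M) : ℝ :=
  ∑ i, (S.metric i).area

/-- the other one of the `2i`-th and the `(2i+1)`-st edge -/
def sw {m : ℕ} (k : Fin (2 * m)) : Fin (2 * m) :=
  ⟨if k.1 % 2 = 0 then k.1 + 1 else k.1 - 1, by
    have := k.2
    split_ifs <;> omega⟩

theorem sw_sw {m : ℕ} (k : Fin (2 * m)) : sw (sw k) = k := by
  apply Fin.ext
  unfold sw
  simp only
  split_ifs <;> omega

theorem sw_ne {m : ℕ} (k : Fin (2 * m)) : sw k ≠ k := by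
  intro h
  have h1 := congrArg Fin.val h
  unfold sw at h1
  simp only at h1
  split_ifs at h1 <;> omega

theorem rot_key : ∀ (n : ℕ) (b : Fin (n + 1) → ℝ), b 0 = 0 → b (Fin.last n) = 2 * Real.pi →
    ∀ k : Fin n, ((b (finRotate _ k).castSucc : ℝ) : AddCircle (2 * Real.pi)) =
      (b k.succ : ℝ) := by
  intro n b h0 h1 k
  obtain ⟨m, rfl⟩ : ∃ m, n = m + 1 := ⟨n - 1, by have := k.2; omega⟩
  by_cases hk : k = Fin.last m
  · subst hk
    rw [finRotate_last, Fin.succ_last, h1, AddCircle.coe_period]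
    rw [Fin.castSucc_zero, h0]
    rfl
  · have e : (finRotate (m + 1) k).castSucc = k.succ := by
      apply Fin.ext
      rw [Fin.val_castSucc, Fin.val_succ, coe_finRotate_of_ne_last hk]
    rw [e]

section

variable {M : Type} [MetricSpace M]

/-- the faces of the closed surface -/
abbrev CF (S : HoledSurface M) : Type := Fin S.faces ⊕ (Σ j : Fin S.holes, Fin (2 * S.half j))

/-- parameter of the `k`-th edge of the `j`-th hole -/
noncomputable def hAng (S : HoledSurface M) (j : Fin S.holes) (k : Fin (2 * S.half j)) (u : ℝ) : ℝ :=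
  S.hBrk j k.castSucc + u * (S.hBrk j k.succ - S.hBrk j k.castSucc)

theorem hBrk_lt (S : HoledSurface M) (j : Fin S.holes) (k : Fin (2 * S.half j)) :
    0 < S.hBrk j k.succ - S.hBrk j k.castSucc :=
  sub_pos.2 (S.hBrk_strictMono j (Fin.castSucc_lt_succ))

theorem hAng_rot (S : HoledSurface M) (j : Fin S.holes) (k : Fin (2 * S.half j)) :
    ((hAng S j (finRotate _ k) 0 : ℝ) : AddCircle (2 * Real.pi)) = (hAng S j k 1 : ℝ) := by
  unfold hAng
  have h := rot_key _ (S.hBrk j) (S.hBrk_zero j) (S.hBrk_last j) k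
  rw [zero_mul, add_zero, one_mul, add_sub_cancel]
  exact h

theorem sum_hBrk (S : HoledSurface M) (j : Fin S.holes) :
    ∑ k : Fin (2 * S.half j), (S.hBrk j k.succ - S.hBrk j k.castSucc) = 2 * Real.pi := by
  have h1 := Fin.sum_univ_succ (S.hBrk j)
  have h2 := Fin.sum_univ_castSucc (S.hBrk j)
  rw [Finset.sum_sub_distrib]
  rw [S.hBrk_zero] at h1
  rw [S.hBrk_last] at h2
  linarith

open Classical in
/-- the pairing of the sides of the closed surface -/
noncomputable def hpair (S : HoledSurface M) : CF S × Fin 4 → CF S × Fin 4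
  | (Sum.inl i, j) => if (i, j) ∈ S.interior then
      (Sum.inl (S.pair (i, j)).1, (S.pair (i, j)).2) else
      if h : ∃ x, S.holeSide x = (i, j) then (Sum.inr h.choose, 2) else (Sum.inl i, j)
  | (Sum.inr x, 0) => (Sum.inr ⟨x.1, sw x.2⟩, 0)
  | (Sum.inr x, 1) => (Sum.inr ⟨x.1, finRotate _ x.2⟩, 3)
  | (Sum.inr x, 2) => (Sum.inl (S.holeSide x).1, (S.holeSide x).2)
  | (Sum.inr x, 3) => (Sum.inr ⟨x.1, (finRotate _).symm x.2⟩, 1)

theorem hpair_int (S : HoledSurface M) {s : Fin S.faces × Fin 4} (h : s ∈ S.interior) :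
    hpair S (Sum.inl s.1, s.2) = (Sum.inl (S.pair s).1, (S.pair s).2) := by
  obtain ⟨i, j⟩ := s
  change (if (i, j) ∈ S.interior then _ else _) = _
  rw [if_pos h]

theorem hpair_hole (S : HoledSurface M) (x : Σ j : Fin S.holes, Fin (2 * S.half j)) :
    hpair S (Sum.inl (S.holeSide x).1, (S.holeSide x).2) = (Sum.inr x, 2) := by
  have h : ((S.holeSide x).1, (S.holeSide x).2) ∉ S.interior :=
    (S.range_eq _).2 (Or.inr ⟨x, rfl⟩)
  have h' : ∃ y, S.holeSide y = ((S.holeSide x).1, (S.holeSide x).2) := ⟨x, rfl⟩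
  change (if ((S.holeSide x).1, (S.holeSide x).2) ∈ S.interior then _ else
    if h : ∃ y, S.holeSide y = ((S.holeSide x).1, (S.holeSide x).2) then _ else _) = _
  rw [if_neg h, dif_pos h']
  have h2 : h'.choose = x := S.holeSide_injective h'.choose_spec
  rw [h2]

theorem hside_cases (S : HoledSurface M) (s : CF S × Fin 4)
    (hs : ∀ k, s ≠ (Sum.inl (S.arcSide k).1, (S.arcSide k).2)) :
    (∃ s' ∈ S.interior, s = (Sum.inl s'.1, s'.2)) ∨
    (∃ x, s = (Sum.inl (S.holeSide x).1, (S.holeSide x).2)) ∨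
    (∃ x, s = (Sum.inr x, 0)) ∨ (∃ x, s = (Sum.inr x, 1)) ∨ (∃ x, s = (Sum.inr x, 2)) ∨
    (∃ x, s = (Sum.inr x, 3)) := by
  obtain ⟨i | x, j⟩ := s
  · by_cases h : (i, j) ∈ S.interior
    · exact Or.inl ⟨(i, j), h, rfl⟩
    · rcases (S.range_eq _).1 h with ⟨k, hk⟩ | ⟨x, hx⟩
      · refine absurd ?_ (hs k)
        rw [hk]
      · refine Or.inr (Or.inl ⟨x, ?_⟩)
        rw [hx]
  · fin_cases j
    · exact Or.inr (Or.inr (Or.inl ⟨x, rfl⟩))
    · exact Or.inr (Or.inr (Or.inr (Or.inl ⟨x, rfl⟩)))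
    · exact Or.inr (Or.inr (Or.inr (Or.inr (Or.inl ⟨x, rfl⟩))))
    · exact Or.inr (Or.inr (Or.inr (Or.inr (Or.inr ⟨x, rfl⟩))))

/-- bounds for the holes: the `j`-th curve is `l j`-Lipschitz, `l j > 0` -/
structure HoleBd (S : HoledSurface M) (l : Fin S.holes → ℝ) : Prop where
  pos : ∀ j, 0 < l j
  lip : ∀ j x y, dist (S.curve j x) (S.curve j y) ≤ l j * dist x y

theorem curve_bdd {S : HoledSurface M} {l : Fin S.holes → ℝ} (h : HoleBd S l) (m₀ : M)
    (j : Fin S.holes) (x : AddCircle (2 * Real.pi)) :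
    dist (S.curve j x) m₀ ≤ l j * Real.pi + dist (S.curve j 0) m₀ := by
  have h1 := dist_triangle (S.curve j x) (S.curve j 0) m₀
  have h2 := h.lip j x 0
  have h3 := mul_le_mul_of_nonneg_left (Pool.Agent.Q146.FAC.dist_le_pi x 0) (h.pos j).le
  linarith

/-- the point of the `j`-th disc with polar coordinates `b`, `θ` -/
noncomputable def dpt {S : HoledSurface M} {l : Fin S.holes → ℝ} (h : HoleBd S l) (m₀ : M)
    (j : Fin S.holes) (b θ : ℝ) : M →ᵇ ℝ :=
  (mcF (S.curve j) (Real.pi / 2 * l j)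
    ((Real.pi / 2 * l j : ℝ) * b * ec (θ : AddCircle (2 * Real.pi))) m₀ (curve_bdd h m₀ j)).B

theorem dpt_zero {S : HoledSurface M} {l : Fin S.holes → ℝ} (h : HoleBd S l) (m₀ : M)
    (j : Fin S.holes) (θ θ' : ℝ) : dpt h m₀ j 0 θ = dpt h m₀ j 0 θ' := by
  unfold dpt
  simp only [Complex.ofReal_zero, mul_zero, zero_mul]

theorem dpt_one {S : HoledSurface M} {l : Fin S.holes → ℝ} (h : HoleBd S l) (m₀ : M)
    (j : Fin S.holes) (θ : ℝ) : dpt h m₀ j 1 θ = (ptF m₀ (S.curve j θ)).B := by
  unfold dpt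
  simp only [Complex.ofReal_one, mul_one]
  exact mcF_curve (S.curve j) (h.lip j) (h.pos j).le m₀ (curve_bdd h m₀ j) _

theorem dpt_congr {S : HoledSurface M} {l : Fin S.holes → ℝ} (h : HoleBd S l) (m₀ : M)
    (j : Fin S.holes) (b : ℝ) {θ θ' : ℝ}
    (e : (θ : AddCircle (2 * Real.pi)) = (θ' : AddCircle (2 * Real.pi))) :
    dpt h m₀ j b θ = dpt h m₀ j b θ' := by
  unfold dpt
  rw [e]

theorem Rpos {S : HoledSurface M} {l : Fin S.holes → ℝ} (h : HoleBd S l) (j : Fin S.holes) :
    0 < Real.pi / 2 * l j := mul_pos (by positivity) (h.pos j)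

/-- the closed surface -/
noncomputable def closeUp (S : HoledSurface M) {l : Fin S.holes → ℝ} (h : HoleBd S l) (m₀ : M)
    {η : ℝ} (hη : 0 < η) : GSurf (CF S) (M →ᵇ ℝ) where
  chart := Sum.elim (fun i p => (ptF m₀ (S.chart i p)).B)
    (fun x p => dpt h m₀ x.1 p.2 (hAng S x.1 x.2 p.1))
  metric := Sum.elim S.metric
    (fun x => dMet (Real.pi / 2 * l x.1) (S.hBrk x.1 x.2.succ - S.hBrk x.1 x.2.castSucc) η
      (Rpos h x.1) (hBrk_lt S x.1 x.2) hη)
  dist_le := by
    rintro (i | x) p hp q hq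
    · change dist (ptF m₀ (S.chart i p)).B (ptF m₀ (S.chart i q)).B ≤ _
      rw [dist_ptF]
      exact S.dist_le i p hp q hq
    · change dist (dpt h m₀ x.1 p.2 (hAng S x.1 x.2 p.1)) (dpt h m₀ x.1 q.2 (hAng S x.1 x.2 q.1))
        ≤ (dMet (Real.pi / 2 * l x.1) (S.hBrk x.1 x.2.succ - S.hBrk x.1 x.2.castSucc) η
      (Rpos h x.1) (hBrk_lt S x.1 x.2) hη).segLength p q
      refine (dist_mcF _ _ _ _ _ _).trans ?_
      rw [ec_coe, ec_coe]
      exact disc_seg (Rpos h x.1) (hBrk_lt S x.1 x.2) hη (S.hBrk x.1 x.2.castSucc) p q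
  interior := {s | ∀ k, s ≠ (Sum.inl (S.arcSide k).1, (S.arcSide k).2)}
  pair := hpair S
  pair_mem := by
    intro s hs k
    rcases hside_cases S s hs with ⟨s', h1, rfl⟩ | ⟨x, rfl⟩ | ⟨x, rfl⟩ | ⟨x, rfl⟩ | ⟨x, rfl⟩ |
      ⟨x, rfl⟩
    · rw [hpair_int S h1]
      intro h2
      have h3 := congrArg Prod.fst h2
      have h4 := congrArg Prod.snd h2
      have h5 : S.pair s' = S.arcSide k := Prod.ext (Sum.inl_injective h3) h4
      exact (S.range_eq _).2 (Or.inl ⟨k, h5.symm⟩) (S.pair_mem _ h1)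
    · rw [hpair_hole]; simp
    · simp [hpair]
    · simp [hpair]
    · intro h2
      have h3 := congrArg Prod.fst h2
      have h4 := congrArg Prod.snd h2
      exact S.disjoint k x (Prod.ext (Sum.inl_injective h3) h4).symm
    · simp [hpair]
  pair_pair := by
    intro s hs
    rcases hside_cases S s hs with ⟨s', h1, rfl⟩ | ⟨x, rfl⟩ | ⟨x, rfl⟩ | ⟨x, rfl⟩ | ⟨x, rfl⟩ |
      ⟨x, rfl⟩
    · rw [hpair_int S h1, hpair_int S (S.pair_mem _ h1), S.pair_pair _ h1]
    · rw [hpair_hole]; rfl
    · change ((Sum.inr ⟨x.1, sw (sw x.2)⟩ : CF S), (0 : Fin 4)) = _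
      rw [sw_sw]
    · change ((Sum.inr ⟨x.1, (finRotate _).symm (finRotate _ x.2)⟩ : CF S), (1 : Fin 4)) = _
      rw [Equiv.symm_apply_apply]
    · exact hpair_hole S x
    · change ((Sum.inr ⟨x.1, finRotate _ ((finRotate _).symm x.2)⟩ : CF S), (3 : Fin 4)) = _
      rw [Equiv.apply_symm_apply]
  pair_ne := by
    intro s hs
    rcases hside_cases S s hs with ⟨s', h1, rfl⟩ | ⟨x, rfl⟩ | ⟨x, rfl⟩ | ⟨x, rfl⟩ | ⟨x, rfl⟩ |
      ⟨x, rfl⟩
    · rw [hpair_int S h1]
      intro h2
      refine S.pair_ne _ h1 ?_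
      have h3 := congrArg Prod.fst h2
      have h4 := congrArg Prod.snd h2
      exact Prod.ext (Sum.inl_injective h3) h4
    · rw [hpair_hole]; simp
    · intro h2
      have h3 := Sum.inr_injective (congrArg Prod.fst h2)
      obtain ⟨j, k⟩ := x
      simp only [Sigma.mk.injEq, heq_eq_eq, true_and] at h3
      exact sw_ne k h3
    · simp [hpair]
    · simp [hpair]
    · simp [hpair]
  glue := by
    intro s hs t ht
    rcases hside_cases S s hs with ⟨s', h1, rfl⟩ | ⟨x, rfl⟩ | ⟨x, rfl⟩ | ⟨x, rfl⟩ | ⟨x, rfl⟩ |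
      ⟨x, rfl⟩
    · rw [hpair_int S h1]
      change (ptF m₀ (S.chart (S.pair s').1 (side (S.pair s').2 t))).B =
        (ptF m₀ (S.chart s'.1 (side s'.2 (1 - t)))).B
      rw [S.glue _ h1 t ht]
    · rw [hpair_hole]
      change dpt h m₀ x.1 1 (hAng S x.1 x.2 (1 - t)) =
        (ptF m₀ (S.chart (S.holeSide x).1 (side (S.holeSide x).2 (1 - t)))).B
      rw [S.curve_eq x.1 x.2 (1 - t) ⟨by linarith [ht.2], by linarith [ht.1]⟩, dpt_one]
      rfl
    · exact dpt_zero h m₀ _ _ _
    · change dpt h m₀ x.1 (1 - t) (hAng S x.1 (finRotate _ x.2) 0) =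
        dpt h m₀ x.1 (1 - t) (hAng S x.1 x.2 1)
      exact dpt_congr h m₀ _ _ (hAng_rot S x.1 x.2)
    · change (ptF m₀ (S.chart (S.holeSide x).1 (side (S.holeSide x).2 t))).B =
        dpt h m₀ x.1 1 (hAng S x.1 x.2 (1 - (1 - t)))
      rw [S.curve_eq x.1 x.2 t ht, dpt_one, sub_sub_cancel]
      rfl
    · change dpt h m₀ x.1 t (hAng S x.1 ((finRotate _).symm x.2) 1) =
        dpt h m₀ x.1 (1 - (1 - t)) (hAng S x.1 x.2 0)
      rw [sub_sub_cancel]
      refine dpt_congr h m₀ _ _ ?_
      rw [← hAng_rot, Equiv.apply_symm_apply]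
  arcs := S.arcs
  arcSide := fun k => (Sum.inl (S.arcSide k).1, (S.arcSide k).2)
  arcSide_injective := fun k l h => by
    have h3 := congrArg Prod.fst h
    have h4 := congrArg Prod.snd h
    exact S.arcSide_injective (Prod.ext (Sum.inl_injective h3) h4)
  arcSide_range := fun s => by
    constructor
    · intro hs
      by_contra hcon
      push Not at hcon
      exact hs fun k h => hcon k h.symm
    · rintro ⟨k, rfl⟩ hs
      exact hs k rfl
  brk := S.brk
  brk_strictMono := S.brk_strictMono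
  brk_zero := S.brk_zero
  brk_last := S.brk_last
  boundary := fun x => (ptF m₀ (S.boundary x)).B
  boundary_eq := fun k u hu => by
    change (ptF m₀ (S.chart (S.arcSide k).1 (side (S.arcSide k).2 u))).B = _
    rw [S.boundary_eq k u hu]

theorem closeUp_area (S : HoledSurface M) {l : Fin S.holes → ℝ} (h : HoleBd S l) (m₀ : M)
    {η : ℝ} (hη : 0 < η) :
    (closeUp S h m₀ hη).toO.area ≤
      S.area + ∑ j, (Real.pi / 2 * l j) ^ 2 * (2 * Real.pi) * (1 / 2 + √η) := by
  rw [GSurf.area_toO, Fintype.sum_sum_type]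
  refine add_le_add le_rfl ?_
  rw [Fintype.sum_sigma]
  refine Finset.sum_le_sum fun j _ => ?_
  have e : ∀ k : Fin (2 * S.half j), ((closeUp S h m₀ hη).metric (Sum.inr ⟨j, k⟩)).area ≤
      (Real.pi / 2 * l j) ^ 2 * (S.hBrk j k.succ - S.hBrk j k.castSucc) * (1 / 2 + √η) := fun k =>
    dMet_area (Rpos h j) (hBrk_lt S j k) hη
  refine (Finset.sum_le_sum fun k _ => e k).trans (le_of_eq ?_)
  rw [← Finset.sum_mul, ← Finset.mul_sum, sum_hBrk]

end

end Pool.Agent.Q146.FAE
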