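import Pool.Agent.Q146.FAD.Glue

/-!
# Euclidean discs in polar coordinates
-/

set_option autoImplicit false

open Set MeasureTheory

namespace Pool.Agent.Q146.FAE

open Pool.Agent.H115R3.Filling Pool.Agent.Q146.FAD

/-- the point of the unit circle -/
noncomputable def ec (x : AddCircle (2 * Real.pi)) : ℂ := (AddCircle.toCircle x : ℂ)

theorem ec_coe (t : ℝ) : ec (t : AddCircle (2 * Real.pi)) = Complex.exp (t * Complex.I) := by
  unfold ec
  rw [AddCircle.toCircle_apply_mk, Circle.coe_exp]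
  have : 2 * Real.pi / (2 * Real.pi) * t = t := by
    rw [div_self (by positivity), one_mul]
  rw [this]

theorem norm_ec (x : AddCircle (2 * Real.pi)) : ‖ec x‖ = 1 := by
  unfold ec
  exact Circle.norm_coe _

/-- every point of the circle is represented by a number between `-π` and `π` -/
theorem exists_rep (x : AddCircle (2 * Real.pi)) :
    ∃ t : ℝ, |t| ≤ Real.pi ∧ (t : AddCircle (2 * Real.pi)) = x := by
  obtain ⟨r, rfl⟩ := QuotientAddGroup.mk_surjective x
  have hpi := Real.pi_pos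
  obtain ⟨k, hk⟩ : ∃ k : ℤ, k = round (r / (2 * Real.pi)) := ⟨_, rfl⟩
  refine ⟨r - k * (2 * Real.pi), ?_, ?_⟩
  · have h2 := abs_sub_round (r / (2 * Real.pi))
    rw [← hk] at h2
    have e : r - k * (2 * Real.pi) = (r / (2 * Real.pi) - k) * (2 * Real.pi) := by
      field_simp
    rw [e, abs_mul, abs_of_pos (by positivity : 0 < 2 * Real.pi)]
    nlinarith
  · have e : (r - k * (2 * Real.pi) : ℝ) = r - k • (2 * Real.pi) := by
      rw [zsmul_eq_mul]
    rw [e, AddCircle.coe_sub, AddCircle.coe_zsmul, AddCircle.coe_period, smul_zero, sub_zero]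

/-- the chord is at least `2 / π` times the arc -/
theorem dist_le_chord (x y : AddCircle (2 * Real.pi)) :
    dist x y ≤ Real.pi / 2 * ‖ec x - ec y‖ := by
  obtain ⟨t, ht, hxy⟩ := exists_rep (x - y)
  have hpi := Real.pi_pos
  have h1 : dist x y ≤ |t| := by
    rw [dist_eq_norm, ← hxy]
    have h2 := dist_coe_le t 0
    rw [dist_eq_norm] at h2
    simpa using h2
  have h2 : ‖ec x - ec y‖ = ‖Complex.exp (Complex.I * t) - 1‖ := by
    have e : ec x = ec (t : AddCircle (2 * Real.pi)) * ec y := by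
      rw [hxy]
      unfold ec
      rw [← Circle.coe_mul, ← AddCircle.toCircle_add, sub_add_cancel]
    rw [e, ec_coe, mul_comm (t : ℂ) Complex.I]
    have e2 : Complex.exp (Complex.I * t) * ec y - ec y = (Complex.exp (Complex.I * t) - 1) * ec y := by
      ring
    rw [e2, norm_mul, norm_ec, mul_one]
  rw [h2, Complex.norm_exp_I_mul_ofReal_sub_one]
  have h3 : 2 / Real.pi * (|t| / 2) ≤ Real.sin (|t| / 2) :=
    Real.mul_le_sin (by positivity) (by linarith)
  have h4 : ‖2 * Real.sin (t / 2)‖ = 2 * |Real.sin (t / 2)| := by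
    rw [Real.norm_eq_abs, abs_mul, abs_of_pos (by norm_num : (0 : ℝ) < 2)]
  rw [h4]
  have h5 : |Real.sin (t / 2)| = |Real.sin (|t| / 2)| := by
    rcases abs_choice t with h | h
    · rw [h]
    · rw [h, neg_div, Real.sin_neg, abs_neg]
  rw [h5]
  have h6 := le_abs_self (Real.sin (|t| / 2))
  have h7 : 2 / Real.pi * (|t| / 2) = |t| / Real.pi := by field_simp
  rw [h7] at h3
  calc dist x y ≤ |t| := h1
    _ = Real.pi / 2 * (2 * (|t| / Real.pi)) := by field_simp
    _ ≤ _ := by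
      refine mul_le_mul_of_nonneg_left ?_ (by positivity)
      linarith

/-- the metric of a sector of a disc of radius `R` in polar coordinates, made nondegenerate -/
def dMet (R D η : ℝ) (hR : 0 < R) (hD : 0 < D) (hη : 0 < η) : RiemMetric where
  E := fun p => R ^ 2 * D ^ 2 * (p.2 ^ 2 + η)
  F := fun _ => 0
  G := fun _ => R ^ 2
  continuousOn_E := by fun_prop
  continuousOn_F := continuousOn_const
  continuousOn_G := continuousOn_const
  pos_E := fun _ _ => by positivity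
  pos_det := fun p _ => by
    have : 0 < R ^ 2 * D ^ 2 * (p.2 ^ 2 + η) * R ^ 2 := by positivity
    linarith

theorem dMet_area {R D η : ℝ} (hR : 0 < R) (hD : 0 < D) (hη : 0 < η) :
    (dMet R D η hR hD hη).area ≤ R ^ 2 * D * (1 / 2 + √η) := by
  unfold RiemMetric.area dMet
  simp only
  have h1 : ∀ p ∈ Sq, √(R ^ 2 * D ^ 2 * (p.2 ^ 2 + η) * R ^ 2 - 0 ^ 2) ≤
      (fun _ : ℝ => R ^ 2 * D) p.1 * (fun y : ℝ => y + √η) p.2 := by
    intro p hp
    have hp2 : 0 ≤ p.2 := hp.2.1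
    apply Real.sqrt_le_iff.2 ⟨by positivity, ?_⟩
    have e : ((fun _ : ℝ => R ^ 2 * D) p.1 * (fun y : ℝ => y + √η) p.2) ^ 2 =
        R ^ 4 * D ^ 2 * (p.2 ^ 2 + 2 * p.2 * √η + √η ^ 2) := by ring
    rw [e, Real.sq_sqrt hη.le]
    have h2 : 0 ≤ R ^ 4 * D ^ 2 * (2 * p.2 * √η) := by positivity
    nlinarith
  have h2 : ContinuousOn (fun p : ℝ × ℝ => √(R ^ 2 * D ^ 2 * (p.2 ^ 2 + η) * R ^ 2 - 0 ^ 2)) Sq := by
    fun_prop
  have h3 : ContinuousOn (fun p : ℝ × ℝ =>
      (fun _ : ℝ => R ^ 2 * D) p.1 * (fun y : ℝ => y + √η) p.2) Sq := by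
    fun_prop
  refine (setIntegral_mono_on (h2.integrableOn_compact isCompact_Sq)
    (h3.integrableOn_compact isCompact_Sq) measurableSet_Sq h1).trans (le_of_eq ?_)
  unfold Sq
  rw [Measure.volume_eq_prod, setIntegral_prod_mul (fun _ : ℝ => R ^ 2 * D)
    (fun y : ℝ => y + √η)]
  have e1 : ∫ _ in Icc (0 : ℝ) 1, R ^ 2 * D = R ^ 2 * D := by
    rw [setIntegral_const]; simp
  have e2 : ∫ y in Icc (0 : ℝ) 1, (y + √η) = 1 / 2 + √η := by
    rw [integral_Icc_eq_integral_Ioc, ← intervalIntegral.integral_of_le zero_le_one,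
      intervalIntegral.integral_add intervalIntegral.intervalIntegrable_id
        intervalIntegrable_const, integral_id, intervalIntegral.integral_const]
    simp
  rw [e1, e2]

/-- the Euclidean distance is at most the length of a segment in polar coordinates -/
theorem disc_seg {R D η : ℝ} (hR : 0 < R) (hD : 0 < D) (hη : 0 < η) (α : ℝ) (p q : ℝ × ℝ) :
    ‖(R * p.2 : ℂ) * Complex.exp ((α + p.1 * D : ℝ) * Complex.I) -
      (R * q.2 : ℂ) * Complex.exp ((α + q.1 * D : ℝ) * Complex.I)‖ ≤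
      (dMet R D η hR hD hη).segLength p q := by
  obtain ⟨z, hz⟩ : ∃ z : ℝ → ℂ, z = fun t => (R * ((p.2 + t * (q.2 - p.2) : ℝ) : ℂ)) *
      Complex.exp (((α + (p.1 + t * (q.1 - p.1)) * D : ℝ) : ℂ) * Complex.I) := ⟨_, rfl⟩
  obtain ⟨z', hz'⟩ : ∃ z' : ℝ → ℂ, z' = fun t =>
      (R * ((q.2 - p.2 : ℝ) : ℂ)) *
        Complex.exp (((α + (p.1 + t * (q.1 - p.1)) * D : ℝ) : ℂ) * Complex.I) +
      (R * ((p.2 + t * (q.2 - p.2) : ℝ) : ℂ)) *
        (Complex.exp (((α + (p.1 + t * (q.1 - p.1)) * D : ℝ) : ℂ) * Complex.I) *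
          ((((q.1 - p.1) * D : ℝ) : ℂ) * Complex.I)) := ⟨_, rfl⟩
  have hd : ∀ t : ℝ, HasDerivAt z (z' t) t := by
    intro t
    rw [hz, hz']
    have h1 : HasDerivAt (fun t : ℝ => p.2 + t * (q.2 - p.2)) (q.2 - p.2) t := by
      simpa using ((hasDerivAt_id t).mul_const (q.2 - p.2)).const_add p.2
    have h2 : HasDerivAt (fun t : ℝ => α + (p.1 + t * (q.1 - p.1)) * D) ((q.1 - p.1) * D) t := by
      simpa using ((((hasDerivAt_id t).mul_const (q.1 - p.1)).const_add p.1).mul_const D).const_add α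
    have h3 := (h1.ofReal_comp).const_mul (R : ℂ)
    have h4 := (((h2.ofReal_comp).mul_const Complex.I)).cexp
    exact h3.mul h4
  have hc : Continuous z' := by
    rw [hz']
    fun_prop
  have h5 : ∫ t in (0 : ℝ)..1, z' t = z 1 - z 0 :=
    intervalIntegral.integral_eq_sub_of_hasDerivAt (fun t _ => hd t) (hc.intervalIntegrable _ _)
  have e1 : z 1 = (R * q.2 : ℂ) * Complex.exp ((α + q.1 * D : ℝ) * Complex.I) := by
    rw [hz]; simp only [one_mul]; rw [add_sub_cancel, add_sub_cancel]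
  have e0 : z 0 = (R * p.2 : ℂ) * Complex.exp ((α + p.1 * D : ℝ) * Complex.I) := by
    rw [hz]; simp only [zero_mul, add_zero]
  rw [← e1, ← e0, norm_sub_rev, ← h5]
  have h6 : ∀ t : ℝ, ‖z' t‖ = R * √((q.2 - p.2) ^ 2 +
      (p.2 + t * (q.2 - p.2)) ^ 2 * ((q.1 - p.1) * D) ^ 2) := by
    intro t
    rw [hz']
    simp only
    have e : (R * ((q.2 - p.2 : ℝ) : ℂ)) *
        Complex.exp (((α + (p.1 + t * (q.1 - p.1)) * D : ℝ) : ℂ) * Complex.I) +
      (R * ((p.2 + t * (q.2 - p.2) : ℝ) : ℂ)) *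
        (Complex.exp (((α + (p.1 + t * (q.1 - p.1)) * D : ℝ) : ℂ) * Complex.I) *
          ((((q.1 - p.1) * D : ℝ) : ℂ) * Complex.I)) =
        (R : ℂ) * ((((q.2 - p.2 : ℝ) : ℂ) +
          (((p.2 + t * (q.2 - p.2)) * ((q.1 - p.1) * D) : ℝ) : ℂ) * Complex.I)) *
        Complex.exp (((α + (p.1 + t * (q.1 - p.1)) * D : ℝ) : ℂ) * Complex.I) := by
      push_cast
      ring
    rw [e, norm_mul, norm_mul, Complex.norm_exp_ofReal_mul_I, mul_one, Complex.norm_real,
      Real.norm_eq_abs, abs_of_pos hR, Complex.norm_add_mul_I, mul_pow]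
  refine (intervalIntegral.norm_integral_le_integral_norm zero_le_one).trans ?_
  unfold RiemMetric.segLength
  refine intervalIntegral.integral_mono_on zero_le_one ?_ ?_ ?_
  · exact hc.norm.intervalIntegrable _ _
  · unfold RiemMetric.norm dMet
    refine Continuous.intervalIntegrable ?_ _ _
    fun_prop
  · intro t _
    rw [h6]
    unfold RiemMetric.norm dMet
    simp only
    have e : R * √((q.2 - p.2) ^ 2 + (p.2 + t * (q.2 - p.2)) ^ 2 * ((q.1 - p.1) * D) ^ 2) =
        √(R ^ 2 * ((q.2 - p.2) ^ 2 + (p.2 + t * (q.2 - p.2)) ^ 2 * ((q.1 - p.1) * D) ^ 2)) := by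
      rw [Real.sqrt_mul (sq_nonneg _), Real.sqrt_sq hR.le]
    rw [e]
    apply Real.sqrt_le_sqrt
    simp only [Prod.fst_sub, Prod.snd_sub, Prod.snd_add, Prod.smul_snd, smul_eq_mul]
    have h7 : 0 ≤ R ^ 2 * D ^ 2 * η * (q.1 - p.1) ^ 2 := by positivity
    nlinarith

end Pool.Agent.Q146.FAE
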