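import Pool.Agent.Q146.FAE.Disc

/-!
# Extension of closed curves to discs, in a space of functions
-/

set_option autoImplicit false

open Set MeasureTheory BoundedContinuousFunction

namespace Pool.Agent.Q146.FAE

open Pool.Agent.H115R3.Filling Pool.Agent.Q146.FAD

variable {M : Type} [MetricSpace M]

/-- `1`-Lipschitz functions at bounded distance from `dist · m₀` -/
structure Fn (m₀ : M) where
  f : M → ℝ
  lip : ∀ y y', f y ≤ f y' + dist y y'
  bdd : ∃ C : ℝ, ∀ y, |f y - dist y m₀| ≤ C

/-- the bounded function `f - dist · m₀` -/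
noncomputable def Fn.B {m₀ : M} (f : Fn m₀) : M →ᵇ ℝ :=
  BoundedContinuousFunction.ofNormedAddCommGroup (fun y => f.f y - dist y m₀)
    (by
      have h1 : LipschitzWith 1 f.f := by
        refine LipschitzWith.of_dist_le_mul fun y y' => ?_
        rw [NNReal.coe_one, one_mul, Real.dist_eq, abs_le]
        have h2 := f.lip y y'
        have h3 := f.lip y' y
        rw [dist_comm y' y] at h3
        constructor <;> linarith
      exact h1.continuous.sub (continuous_id.dist continuous_const))
    f.bdd.choose f.bdd.choose_spec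

theorem B_apply {m₀ : M} (f : Fn m₀) (y : M) : f.B y = f.f y - dist y m₀ := rfl

theorem dist_B_le {m₀ : M} (f g : Fn m₀) {d : ℝ} (hd : 0 ≤ d) (h : ∀ y, |f.f y - g.f y| ≤ d) :
    dist f.B g.B ≤ d := by
  rw [BoundedContinuousFunction.dist_le hd]
  intro y
  rw [B_apply, B_apply, Real.dist_eq, sub_sub_sub_cancel_right]
  exact h y

theorem le_dist_B {m₀ : M} (f g : Fn m₀) (y : M) : |f.f y - g.f y| ≤ dist f.B g.B := by
  have h := BoundedContinuousFunction.dist_coe_le_dist (f := f.B) (g := g.B) y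
  rw [B_apply, B_apply, Real.dist_eq, sub_sub_sub_cancel_right] at h
  exact h

/-- the function of a point -/
def ptF (m₀ m : M) : Fn m₀ where
  f := fun y => dist y m
  lip := fun y y' => by
    have := dist_triangle y y' m
    linarith
  bdd := ⟨dist m m₀, fun y => by
    rw [abs_le]
    have h1 := dist_triangle y m m₀
    have h2 := dist_triangle y m₀ m
    rw [dist_comm m₀ m] at h2
    constructor <;> linarith⟩

theorem dist_ptF (m₀ m m' : M) : dist (ptF m₀ m).B (ptF m₀ m').B = dist m m' := by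
  apply le_antisymm
  · refine dist_B_le _ _ dist_nonneg fun y => ?_
    change |dist y m - dist y m'| ≤ dist m m'
    rw [dist_comm y m, dist_comm y m']
    exact abs_dist_sub_le m m' y
  · have h := le_dist_B (ptF m₀ m) (ptF m₀ m') m'
    change |dist m' m - dist m' m'| ≤ _ at h
    rw [dist_self, sub_zero, abs_of_nonneg dist_nonneg, dist_comm m' m] at h
    exact h

section

variable (γ : AddCircle (2 * Real.pi) → M) (R : ℝ) (z : ℂ)

theorem bddB (y : M) : BddBelow (range fun x : AddCircle (2 * Real.pi) =>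
    dist y (γ x) + ‖z - R * ec x‖) :=
  ⟨0, by rintro _ ⟨x, rfl⟩; positivity⟩

/-- the extension of the curve `γ` at the point `z` -/
noncomputable def mc (y : M) : ℝ := ⨅ x : AddCircle (2 * Real.pi), (dist y (γ x) + ‖z - R * ec x‖)

theorem mc_le (y : M) (x : AddCircle (2 * Real.pi)) :
    mc γ R z y ≤ dist y (γ x) + ‖z - R * ec x‖ := ciInf_le (bddB γ R z y) x

theorem le_mc {y : M} {a : ℝ} (h : ∀ x, a ≤ dist y (γ x) + ‖z - R * ec x‖) : a ≤ mc γ R z y :=
  le_ciInf h

theorem mc_lip (y y' : M) : mc γ R z y ≤ mc γ R z y' + dist y y' := by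
  have h : mc γ R z y - dist y y' ≤ mc γ R z y' := by
    refine le_mc γ R z fun x => ?_
    have h1 := mc_le γ R z y x
    have h2 := dist_triangle y y' (γ x)
    linarith
  linarith

/-- the extension as an element of the space of functions -/
noncomputable def mcF (m₀ : M) {L : ℝ} (hL : ∀ x, dist (γ x) m₀ ≤ L) : Fn m₀ where
  f := mc γ R z
  lip := mc_lip γ R z
  bdd := ⟨L + ‖z - R * ec 0‖, fun y => by
    rw [abs_le]
    constructor
    · have h1 : dist y m₀ - L ≤ mc γ R z y := by
        refine le_mc γ R z fun x => ?_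
        have h2 := dist_triangle y (γ x) m₀
        have h3 := hL x
        have h4 := norm_nonneg (z - R * ec x)
        linarith
      have h4 := norm_nonneg (z - R * ec 0)
      linarith
    · have h1 := mc_le γ R z y 0
      have h2 := dist_triangle y m₀ (γ 0)
      have h3 := hL 0
      rw [dist_comm] at h3
      linarith⟩

end

theorem mc_sub (γ : AddCircle (2 * Real.pi) → M) (R : ℝ) (z w : ℂ) (y : M) :
    mc γ R z y ≤ mc γ R w y + ‖z - w‖ := by
  have h : mc γ R z y - ‖z - w‖ ≤ mc γ R w y := by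
    refine le_mc γ R w fun x => ?_
    have h1 := mc_le γ R z y x
    have h2 := norm_sub_le_norm_sub_add_norm_sub z w (R * ec x)
    linarith
  linarith

theorem dist_mcF (γ : AddCircle (2 * Real.pi) → M) (R : ℝ) (z w : ℂ) (m₀ : M) {L : ℝ}
    (hL : ∀ x, dist (γ x) m₀ ≤ L) :
    dist (mcF γ R z m₀ hL).B (mcF γ R w m₀ hL).B ≤ ‖z - w‖ := by
  refine dist_B_le _ _ (norm_nonneg _) fun y => ?_
  change |mc γ R z y - mc γ R w y| ≤ _
  have h1 := mc_sub γ R z w y
  have h2 := mc_sub γ R w z y
  rw [norm_sub_rev w z] at h2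
  rw [abs_le]
  constructor <;> linarith

/-- on the circle of radius `R = π λ / 2` the extension is the curve -/
theorem mcF_curve (γ : AddCircle (2 * Real.pi) → M) {l : ℝ}
    (hl : ∀ x y, dist (γ x) (γ y) ≤ l * dist x y) (hl0 : 0 ≤ l) (m₀ : M) {L : ℝ}
    (hL : ∀ x, dist (γ x) m₀ ≤ L) (x : AddCircle (2 * Real.pi)) :
    (mcF γ (Real.pi / 2 * l) ((Real.pi / 2 * l : ℝ) * ec x) m₀ hL).B = (ptF m₀ (γ x)).B := by
  refine dist_eq_zero.1 (le_antisymm (dist_B_le _ _ le_rfl fun y => ?_) dist_nonneg)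
  change |mc γ _ _ y - dist y (γ x)| ≤ 0
  have h1 : mc γ (Real.pi / 2 * l) ((Real.pi / 2 * l : ℝ) * ec x) y ≤ dist y (γ x) := by
    have := mc_le γ (Real.pi / 2 * l) ((Real.pi / 2 * l : ℝ) * ec x) y x
    rwa [sub_self, norm_zero, add_zero] at this
  have h2 : dist y (γ x) ≤ mc γ (Real.pi / 2 * l) ((Real.pi / 2 * l : ℝ) * ec x) y := by
    refine le_mc _ _ _ fun x' => ?_
    have h3 := dist_triangle y (γ x') (γ x)
    have h4 := hl x' x
    have h5 := mul_le_mul_of_nonneg_left (dist_le_chord x' x) hl0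
    have h6 : ‖((Real.pi / 2 * l : ℝ) : ℂ) * ec x - ((Real.pi / 2 * l : ℝ) : ℂ) * ec x'‖ =
        l * (Real.pi / 2 * ‖ec x' - ec x‖) := by
      rw [← mul_sub, norm_mul, Complex.norm_real, Real.norm_eq_abs,
        abs_of_nonneg (by positivity), norm_sub_rev]
      ring
    rw [h6]
    linarith
  rw [abs_nonpos_iff, sub_eq_zero]
  exact le_antisymm h1 h2

end Pool.Agent.Q146.FAE
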