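import Pool.Agent.Q146.FAE.Cap

/-!
# The area of surfaces with holes
-/

set_option autoImplicit false

open Set MeasureTheory BoundedContinuousFunction

namespace Pool.Agent.Q146.FAE

open Pool.Agent.H115R3.Filling Pool.Agent.Q146.FAD

variable {M : Type} [MetricSpace M]

/-- an oriented surface as a surface without holes -/
def ofClosed (S : OrientedSurface M) : HoledSurface M where
  faces := S.faces
  chart := S.chart
  metric := S.metric
  dist_le := S.dist_le
  interior := S.interior
  pair := S.pair
  pair_mem := S.pair_mem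
  pair_pair := S.pair_pair
  pair_ne := S.pair_ne
  glue := S.glue
  arcs := S.arcs
  arcSide := S.arcSide
  arcSide_injective := S.arcSide_injective
  holes := 0
  half := fun j => j.elim0
  holeSide := fun x => x.1.elim0
  holeSide_injective := fun x => x.1.elim0
  disjoint := fun _ x => x.1.elim0
  range_eq := fun s => by
    rw [S.arcSide_range]
    exact ⟨fun h => Or.inl h, fun h => h.elim id fun ⟨x, _⟩ => x.1.elim0⟩
  brk := S.brk
  brk_strictMono := S.brk_strictMono
  brk_zero := S.brk_zero
  brk_last := S.brk_last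
  boundary := S.boundary
  boundary_eq := S.boundary_eq
  hBrk := fun j => j.elim0
  hBrk_strictMono := fun j => j.elim0
  hBrk_zero := fun j => j.elim0
  hBrk_last := fun j => j.elim0
  curve := fun j => j.elim0
  curve_eq := fun j => j.elim0

/-- **closing the holes** -/
theorem holes {A c : ℝ} {S : HoledSurface M} {l : Fin S.holes → ℝ} (h : HoleBd S l)
    (H : ∀ (M' : Type) [MetricSpace M'] (S' : OrientedSurface M'),
      (∀ x y, dist (S'.boundary x) (S'.boundary y) = dist (S.boundary x) (S.boundary y)) →
        A ≤ S'.area + c) :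
    A ≤ S.area + c + ∑ j, Real.pi ^ 3 / 4 * l j ^ 2 := by
  refine le_of_forall_pos_le_add fun δ hδ => ?_
  obtain ⟨C, hC⟩ : ∃ C : ℝ, C = ∑ j, (Real.pi / 2 * l j) ^ 2 * (2 * Real.pi) := ⟨_, rfl⟩
  have hC0 : 0 ≤ C := by
    rw [hC]
    exact Finset.sum_nonneg fun j _ => by positivity
  have hη : 0 < (δ / (C + 1)) ^ 2 := by positivity
  have h1 := H _ (closeUp S h (S.boundary 0) hη).toO (fun x y => dist_ptF _ _ _)
  have h2 := closeUp_area S h (S.boundary 0) hη
  rw [Real.sqrt_sq (by positivity)] at h2
  have e : ∑ j, (Real.pi / 2 * l j) ^ 2 * (2 * Real.pi) * (1 / 2 + δ / (C + 1)) =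
      (∑ j, Real.pi ^ 3 / 4 * l j ^ 2) + C * (δ / (C + 1)) := by
    rw [← Finset.sum_mul, ← hC, mul_add]
    congr 1
    rw [hC, Finset.sum_mul]
    refine Finset.sum_congr rfl fun j _ => ?_
    ring
  rw [e] at h2
  have h3 : C * (δ / (C + 1)) ≤ δ := by
    rw [mul_div_assoc', div_le_iff₀ (by positivity)]
    nlinarith
  linarith

end Pool.Agent.Q146.FAE
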